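import Mathlib

set_option autoImplicit false

open Set Filter Topology Metric

namespace Pool.Agent.H.MP_345ce5_an

lemma n1 {s : ℂ} (hs : 0 ≤ s.re) {δ : ℝ} (hδ : 0 ≤ δ) : ‖s‖ ≤ ‖s + δ‖ := by
  refine (pow_le_pow_iff_left₀ (norm_nonneg _) (norm_nonneg _) two_ne_zero).1 ?_
  rw [Complex.sq_norm, Complex.sq_norm, Complex.normSq_apply, Complex.normSq_apply]
  simp only [Complex.add_re, Complex.ofReal_re, Complex.add_im, Complex.ofReal_im, add_zero]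
  nlinarith [mul_nonneg hs hδ]

noncomputable def hh (m δ : ℝ) (s : ℂ) : ℂ := m / s + m / (s + δ)

lemma n2 {s : ℂ} (hs : 0 ≤ s.re) (h0 : s ≠ 0) {m δ : ℝ} (hm : 0 ≤ m) (hδ : 0 ≤ δ) :
    ‖hh m δ s‖ ≤ 2 * (m / ‖s‖) := by
  have h1 := n1 hs hδ
  have h2 := norm_pos_iff.2 h0
  refine (norm_add_le _ _).trans ?_
  simp only [norm_div, Complex.norm_real, Real.norm_eq_abs, abs_of_nonneg hm]
  have : m / ‖s + δ‖ ≤ m / ‖s‖ := by gcongr
  linarith

lemma n3 {s : ℂ} (hs : 0 ≤ s.re) (h0 : s ≠ 0) {m δ : ℝ} (hm : 0 ≤ m) (hδ : 0 ≤ δ) :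
    m / ‖s‖ ≤ ‖hh m δ s‖ := by
  have h1 := n1 hs hδ
  have h2 := norm_pos_iff.2 h0
  have h3 : s + δ ≠ 0 := norm_pos_iff.1 (h2.trans_le h1)
  have e : hh m δ s = m / s * ((2 * s + δ) / (s + δ)) := by
    rw [hh]
    field_simp
    ring
  have h4 : ‖s + δ‖ ≤ ‖2 * s + δ‖ := by
    refine (pow_le_pow_iff_left₀ (norm_nonneg _) (norm_nonneg _) two_ne_zero).1 ?_
    rw [Complex.sq_norm, Complex.sq_norm, Complex.normSq_apply, Complex.normSq_apply]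
    simp only [Complex.add_re, Complex.ofReal_re, Complex.add_im, Complex.ofReal_im, add_zero,
      Complex.mul_re, Complex.mul_im, Complex.re_ofNat, Complex.im_ofNat]
    nlinarith [mul_nonneg hs hδ]
  rw [e, norm_mul, norm_div, norm_div, Complex.norm_real, Real.norm_eq_abs, abs_of_nonneg hm]
  exact le_mul_of_one_le_right (by positivity) ((one_le_div (h2.trans_le h1)).2 h4)

lemma re_div {s : ℂ} (hs : 0 ≤ s.re) {m : ℝ} (hm : 0 ≤ m) : 0 ≤ ((m : ℂ) / s).re := by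
  rw [Complex.div_re]
  have := Complex.normSq_nonneg s
  simp only [Complex.ofReal_re, Complex.ofReal_im, zero_mul, zero_div, add_zero]
  positivity

lemma n4 {s : ℂ} (hs : 0 ≤ s.re) (h0 : s ≠ 0) {m δ : ℝ} (hm : 0 ≤ m) (hδ : 0 ≤ δ) :
    m * δ / (‖s‖ + δ) ^ 2 ≤ (hh m δ s).re := by
  have h1 := n1 hs hδ
  have h2 := norm_pos_iff.2 h0
  have h5 : ‖s + δ‖ ≤ ‖s‖ + δ := by
    simpa [abs_of_nonneg hδ] using norm_add_le s δ
  rw [hh, Complex.add_re]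
  refine le_add_of_nonneg_of_le (re_div hs hm) ?_
  rw [Complex.div_re, ← Complex.sq_norm]
  simp only [Complex.ofReal_re, Complex.ofReal_im, zero_mul, zero_div, add_zero, Complex.add_re]
  have h6 : 0 < ‖s + δ‖ := h2.trans_le h1
  gcongr
  linarith

lemma n0 {s s' : ℂ} (h0 : s ≠ 0) (h0' : s' ≠ 0) {m : ℝ} (hm : 0 ≤ m) :
    ‖(m : ℂ) / s - m / s'‖ = m * (‖s - s'‖ / (‖s‖ * ‖s'‖)) := by
  rw [div_sub_div _ _ h0 h0', show m * s' - s * m = m * (s' - s) by ring, norm_div, norm_mul,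
    norm_mul, Complex.norm_real, Real.norm_eq_abs, abs_of_nonneg hm, norm_sub_rev, mul_div_assoc]

lemma n5 {s s' : ℂ} (hs : 0 ≤ s.re) (h0 : s ≠ 0) (hs' : 0 ≤ s'.re) (h0' : s' ≠ 0) {m δ : ℝ}
    (hm : 0 ≤ m) (hδ : 0 ≤ δ) :
    ‖hh m δ s - hh m δ s'‖ ≤ 2 * (m * (‖s - s'‖ / (‖s‖ * ‖s'‖))) := by
  have h1 := n1 hs hδ
  have h2 := norm_pos_iff.2 h0
  have h1' := n1 hs' hδ
  have h2' := norm_pos_iff.2 h0'
  rw [hh, hh, add_sub_add_comm]
  refine (norm_add_le _ _).trans ?_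
  rw [n0 h0 h0' hm, n0 (norm_pos_iff.1 (h2.trans_le h1)) (norm_pos_iff.1 (h2'.trans_le h1')) hm,
    add_sub_add_right_eq_sub]
  have : m * (‖s - s'‖ / (‖s + δ‖ * ‖s' + δ‖)) ≤ m * (‖s - s'‖ / (‖s‖ * ‖s'‖)) := by gcongr
  linarith

lemma core {a h e : ℂ} {ρ t x m : ℝ} (hρ : 0 < ρ) (ht : 0 < t) (hm : 0 < m) (hm' : m ≤ 1 / 16)
    (hx : |x - ρ| ≤ t) (ha : ‖a‖ = 1 / ρ) (he : ‖e‖ ≤ 1 / ρ / 4) (h1 : m / t ≤ ‖h‖)
    (h2 : ‖h‖ ≤ 2 * (m / t)) (h3 : m * (m * x) / (t + m * x) ^ 2 ≤ h.re) (ra : 0 ≤ a.re)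
    (re : 0 ≤ e.re) : 9 / 8 * (1 / ρ) + m / t ≤ 2000 * ‖a + (h + e)‖ := by
  have hu : 0 < 1 / ρ := by positivity
  have hv : 0 < m / t := by positivity
  have k1 : ‖a‖ ≤ ‖a + (h + e)‖ + ‖h‖ + ‖e‖ := by
    have := norm_sub_le (a + (h + e)) (h + e)
    rw [add_sub_cancel_right] at this
    linarith [norm_add_le h e]
  have k2 : ‖h‖ ≤ ‖a + (h + e)‖ + ‖a‖ + ‖e‖ := by
    have := norm_sub_le (a + (h + e)) (a + e)
    rw [show a + (h + e) - (a + e) = h by ring] at this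
    linarith [norm_add_le a e]
  by_cases c1 : m / t ≤ 1 / ρ / 8
  · linarith
  by_cases c2 : 8 * (1 / ρ) ≤ m / t
  · linarith
  have k3 : h.re ≤ ‖a + (h + e)‖ := by
    refine le_trans ?_ (Complex.re_le_norm _)
    simp only [Complex.add_re]
    linarith
  have k4 : t ≤ 8 * m * ρ := by
    rw [not_le, div_div, div_lt_div_iff₀ (by positivity) ht] at c1
    linarith
  have k5 : t ≤ ρ / 2 := by nlinarith
  obtain ⟨k6, k7⟩ := abs_le.1 hx
  have k8 : m * (m * (ρ / 2)) / (19 / 2 * m * ρ) ^ 2 ≤ m * (m * x) / (t + m * x) ^ 2 := by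
    have : 0 < x := by linarith
    gcongr
    · linarith
    · nlinarith
  have k9 : m * (m * (ρ / 2)) / (19 / 2 * m * ρ) ^ 2 = 2 / 361 * (1 / ρ) := by
    field_simp
    norm_num
  linarith

lemma geo {y a b α : ℝ} (hy : 0 ≤ y) (ha : y ≤ a) (hb : y ≤ b) (h0 : 0 < α) (h1 : α < 1) :
    y ≤ a ^ α * b ^ (1 - α) := by
  have := hy.trans ha
  have := sub_pos.2 h1
  calc y = y ^ α * y ^ (1 - α) := by
        rw [← Real.rpow_add' hy (by simp)]
        simp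
    _ ≤ _ := by gcongr

lemma lemA0 {y t α C : ℝ} (hy : 0 ≤ y) (ht : 0 ≤ t) (hC : 1 ≤ C) (h0 : 0 < α) (h1 : α < 1)
    (a1 : y ≤ 1) (a2 : y ≤ C * t) : y ≤ C * t ^ α := by
  refine (geo hy a2 a1 h0 h1).trans ?_
  rw [Real.one_rpow, mul_one, Real.mul_rpow (by linarith) ht]
  gcongr
  exact (Real.rpow_le_rpow_of_exponent_le hC h1.le).trans (Real.rpow_one C).le

lemma lemA {y t x ρ m α κ : ℝ} (hy : 0 ≤ y) (ht : 0 ≤ t) (hx : 0 ≤ x) (hm : 0 < m) (hκ : 0 < κ)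
    (h0 : 0 < α) (h1 : α < 1) (hA : κ * x ^ (1 - α) ≤ m ^ α) (hρ : ρ ≤ x + t)
    (a1 : y ≤ 1) (a2 : y ≤ 2000 * ρ) (a3 : y ≤ 2000 * (t / m)) :
    y ≤ 4000 * (1 + 1 / κ) * t ^ α := by
  have hk : 0 < 1 / κ := by positivity
  have ht' : 0 ≤ t ^ α := by positivity
  rcases le_total x t with h | h
  · refine (lemA0 hy ht (C := 4000) (by norm_num) h0 h1 a1 (by linarith)).trans ?_
    gcongr
    linarith
  · have h2 := geo hy (a := 4000 * (t / m)) (b := 4000 * x)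
      (a3.trans (by have : 0 ≤ t / m := by positivity
                    linarith)) (by linarith) h0 h1
    rw [Real.mul_rpow (by norm_num) (by positivity), Real.mul_rpow (by norm_num) hx,
      mul_mul_mul_comm, ← Real.rpow_add (by norm_num), add_sub_cancel, Real.rpow_one,
      Real.div_rpow ht hm.le] at h2
    have h3 : t ^ α / m ^ α * x ^ (1 - α) ≤ 1 / κ * t ^ α := by
      have : 0 < m ^ α := by positivity
      rw [div_mul_eq_mul_div, div_le_iff₀ this]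
      calc _ = 1 / κ * t ^ α * (κ * x ^ (1 - α)) := by field_simp
        _ ≤ _ := by gcongr
    nlinarith

lemma lemB0 {d t t' y y' C α : ℝ} (hd : 0 ≤ d) (ht' : 0 < t') (h : t' ≤ t)
    (hdt : d ≤ t + t') (hy : 0 ≤ y) (hy' : 0 ≤ y') (hC : 0 ≤ C) (h0 : 0 < α) (h1 : α < 1)
    (a1 : y ≤ C * t ^ α) : d / (t * t') * (y * y') ≤ 2 * C * d ^ α * (y' / t') := by
  have ht : 0 < t := ht'.trans_le h
  have h2 := geo hd le_rfl (b := 2 * t) (by linarith) h0 h1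
  have h3 : (2 * t) ^ (1 - α) ≤ 2 * t ^ (1 - α) := by
    rw [Real.mul_rpow (by norm_num) ht.le]
    gcongr
    exact (Real.rpow_le_rpow_of_exponent_le one_le_two (by linarith)).trans (Real.rpow_one 2).le
  have h4 : t ^ (1 - α) * t ^ α = t := by
    rw [← Real.rpow_add ht]
    simp
  calc _ = d * y / t * (y' / t') := by field_simp
    _ ≤ d ^ α * (2 * t ^ (1 - α)) * (C * t ^ α) / t * (y' / t') := by
        gcongr
        exact h2.trans (by gcongr)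
    _ = 2 * C * d ^ α * (y' / t') * (t ^ (1 - α) * t ^ α / t) := by ring
    _ = _ := by rw [h4, div_self ht.ne', mul_one]

lemma lemB {d t t' y y' C α : ℝ} (hd : 0 ≤ d) (ht : 0 < t) (ht' : 0 < t')
    (hdt : d ≤ t + t') (hy : 0 ≤ y) (hy' : 0 ≤ y') (hC : 0 ≤ C) (h0 : 0 < α) (h1 : α < 1)
    (a1 : y ≤ C * t ^ α) (a2 : y' ≤ C * t' ^ α) :
    d / (t * t') * (y * y') ≤ 2 * C * d ^ α * (y / t + y' / t') := by
  rcases le_total t' t with h | h
  · refine (lemB0 hd ht' h hdt hy hy' hC h0 h1 a1).trans ?_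
    gcongr
    exact le_add_of_nonneg_left (by positivity)
  · rw [mul_comm t, mul_comm y]
    refine (lemB0 hd ht h (by linarith) hy' hy hC h0 h1 a2).trans ?_
    gcongr
    exact le_add_of_nonneg_right (by positivity)

end Pool.Agent.H.MP_345ce5_an
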