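import Pool.Agent.H.MP_345ce5_an.A

set_option autoImplicit false

open Set Filter Topology Metric

namespace Pool.Agent.H.MP_345ce5_an

noncomputable def ss (ζ z : ℂ) : ℂ := 1 - z * (starRingEnd ℂ) ζ

lemma ss_norm {ζ : ℂ} (h : ‖ζ‖ = 1) (z : ℂ) : ‖ss ζ z‖ = ‖z - ζ‖ := by
  have e : ss ζ z = (ζ - z) * (starRingEnd ℂ) ζ := by
    rw [ss, sub_mul, Complex.mul_conj, Complex.normSq_eq_norm_sq, h]
    simp
  rw [e, norm_mul, Complex.norm_conj, h, mul_one, norm_sub_rev]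

lemma ss_sub {ζ : ℂ} (h : ‖ζ‖ = 1) (z z' : ℂ) : ‖ss ζ z - ss ζ z'‖ = ‖z - z'‖ := by
  rw [ss, ss, show 1 - z * (starRingEnd ℂ) ζ - (1 - z' * (starRingEnd ℂ) ζ) =
    (z' - z) * (starRingEnd ℂ) ζ by ring, norm_mul, Complex.norm_conj, h, mul_one, norm_sub_rev]

lemma ss_re {ζ z : ℂ} (h : ‖ζ‖ = 1) (hz : ‖z‖ ≤ 1) : 0 ≤ (ss ζ z).re := by
  have := Complex.re_le_norm (z * (starRingEnd ℂ) ζ)
  rw [norm_mul, Complex.norm_conj, h, mul_one] at this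
  rw [ss, Complex.sub_re, Complex.one_re]
  linarith

lemma ss_ne {ζ z : ℂ} (h : ‖ζ‖ = 1) (hz : z ≠ ζ) : ss ζ z ≠ 0 := by
  rw [← norm_pos_iff, ss_norm h, norm_pos_iff]
  exact sub_ne_zero.2 hz

variable {ι : Type} (ζ : ι → ℂ) (m : ι → ℝ)

noncomputable def tm (i : ι) (z : ℂ) : ℂ := hh (m i) (m i * ‖1 - ζ i‖) (ss (ζ i) z)

noncomputable def HH (z : ℂ) : ℂ := ((1 : ℝ) : ℂ) / (1 - z) + ∑' i, tm ζ m i z

structure Hyp : Prop where
  hζ : ∀ i, ‖ζ i‖ = 1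
  hm : ∀ i, 0 < m i
  hm' : ∀ i, m i ≤ 1 / 16
  hc : ∀ z : ℂ, ‖z‖ ≤ 1 → z ≠ 1 → (∀ i, z ≠ ζ i) → ∃ k, ∀ F : Finset ι, k ∉ F →
    ∑ i ∈ F, m i / ‖z - ζ i‖ ≤ 1 / ‖1 - z‖ / 8

variable {ζ m}

lemma Hyp.tm_le (h : Hyp ζ m) {z : ℂ} (hz : ‖z‖ ≤ 1) {i : ι} (hi : z ≠ ζ i) :
    ‖tm ζ m i z‖ ≤ 2 * (m i / ‖z - ζ i‖) := by
  rw [← ss_norm (h.hζ i)]
  exact n2 (ss_re (h.hζ i) hz) (ss_ne (h.hζ i) hi) (h.hm i).le (by have := h.hm i; positivity)

lemma Hyp.low (h : Hyp ζ m) {z : ℂ} (hz : ‖z‖ ≤ 1) (h1 : z ≠ 1) (hi : ∀ i, z ≠ ζ i) :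
    (Summable fun i => m i / ‖z - ζ i‖) ∧ 0 ≤ (HH ζ m z).re ∧
      1 / ‖1 - z‖ + ∑' i, m i / ‖z - ζ i‖ ≤ 2000 * ‖HH ζ m z‖ := by
  classical
  obtain ⟨k, hk⟩ := h.hc z hz h1 hi
  have w0 : ∀ i, 0 ≤ m i / ‖z - ζ i‖ := fun i => by have := h.hm i; positivity
  have d0 : ∀ i, 0 ≤ m i * ‖1 - ζ i‖ := fun i => by have := h.hm i; positivity
  have w1 : ∀ i, 0 ≤ if i = k then 0 else m i / ‖z - ζ i‖ := fun i => by
    split_ifs
    exacts [le_rfl, w0 i]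
  have hk' : ∀ F : Finset ι, ∑ i ∈ F, (if i = k then 0 else m i / ‖z - ζ i‖) ≤
      1 / ‖1 - z‖ / 8 := fun F => by
    rw [← Finset.sum_erase F (a := k) (by simp)]
    refine le_trans (le_of_eq (Finset.sum_congr rfl fun i hi => ?_)) (hk _ (F.notMem_erase k))
    rw [if_neg (Finset.ne_of_mem_erase hi)]
  have s1 := summable_of_sum_le w1 hk'
  have t1 := Real.tsum_le_of_sum_le w1 hk'
  have s2 : Summable fun i => m i / ‖z - ζ i‖ := by
    refine (s1.add (hasSum_ite_eq k (m k / ‖z - ζ k‖)).summable).congr fun i => ?_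
    split_ifs with hik
    · simp [hik]
    · simp
  have s3 : Summable fun i => tm ζ m i z :=
    (s2.mul_left 2).of_norm_bounded fun i => h.tm_le hz (hi i)
  have r1 : ∀ i, 0 ≤ (tm ζ m i z).re := fun i =>
    le_trans (by have := d0 i; have := h.hm i; positivity)
      (n4 (ss_re (h.hζ i) hz) (ss_ne (h.hζ i) (hi i)) (h.hm i).le (d0 i))
  have b1 : ∀ i, ‖if i = k then 0 else tm ζ m i z‖ ≤
      2 * if i = k then 0 else m i / ‖z - ζ i‖ := fun i => by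
    split_ifs
    · simp
    · exact h.tm_le hz (hi i)
  have s4 : Summable fun i => if i = k then 0 else tm ζ m i z := (s1.mul_left 2).of_norm_bounded b1
  have r2 : 0 ≤ (∑' i, if i = k then 0 else tm ζ m i z).re := by
    rw [Complex.re_tsum s4]
    refine tsum_nonneg fun i => ?_
    split_ifs
    exacts [le_rfl, r1 i]
  have r3 : 0 ≤ (((1 : ℝ) : ℂ) / (1 - z)).re := re_div (by
    have := Complex.re_le_norm z
    rw [Complex.sub_re, Complex.one_re]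
    linarith) zero_le_one
  have b2 := tsum_of_norm_bounded (s1.hasSum.mul_left 2) b1
  rw [HH, s3.tsum_eq_add_tsum_ite k, s2.tsum_eq_add_tsum_ite k]
  refine ⟨s2, by simp only [Complex.add_re]; linarith [r1 k], le_trans (by linarith)
    (core (x := ‖1 - ζ k‖) (norm_pos_iff.2 (sub_ne_zero.2 h1.symm))
      (norm_pos_iff.2 (sub_ne_zero.2 (hi k))) (h.hm k) (h.hm' k) ?_ (by simp) (by linarith) ?_
      (h.tm_le hz (hi k)) ?_ r3 r2)⟩
  · simpa using abs_norm_sub_norm_le (1 - ζ k) (1 - z)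
  · rw [← ss_norm (h.hζ k)]
    exact n3 (ss_re (h.hζ k) hz) (ss_ne (h.hζ k) (hi k)) (h.hm k).le (d0 k)
  · rw [← ss_norm (h.hζ k) z]
    exact n4 (ss_re (h.hζ k) hz) (ss_ne (h.hζ k) (hi k)) (h.hm k).le (d0 k)

lemma onep {H : ℂ} (h : 0 ≤ H.re) : 1 ≤ ‖1 + H‖ ∧ ‖H‖ < ‖1 + H‖ := by
  constructor
  · refine le_trans ?_ (Complex.re_le_norm _)
    simpa using h
  · refine (pow_lt_pow_iff_left₀ (norm_nonneg _) (norm_nonneg _) two_ne_zero).1 ?_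
    rw [Complex.sq_norm, Complex.sq_norm, Complex.normSq_apply, Complex.normSq_apply]
    simp only [Complex.add_re, Complex.one_re, Complex.add_im, Complex.one_im, zero_add]
    nlinarith

lemma Hyp.small (h : Hyp ζ m) {α κ : ℝ} (h0 : 0 < α) (h1 : α < 1) (hκ : 0 < κ)
    (hA : ∀ i, κ * ‖1 - ζ i‖ ^ (1 - α) ≤ m i ^ α) {z : ℂ} (hz : ‖z‖ ≤ 1) (hz1 : z ≠ 1)
    (hi : ∀ i, z ≠ ζ i) :
    ‖(1 + HH ζ m z)⁻¹‖ * (1 / ‖1 - z‖ + ∑' i, m i / ‖z - ζ i‖) ≤ 2000 ∧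
    ‖(1 + HH ζ m z)⁻¹‖ ≤ 4000 * (1 + 1 / κ) * ‖1 - z‖ ^ α ∧
    ∀ i, ‖(1 + HH ζ m z)⁻¹‖ ≤ 4000 * (1 + 1 / κ) * ‖z - ζ i‖ ^ α := by
  obtain ⟨s, r, b⟩ := h.low hz hz1 hi
  obtain ⟨o1, o2⟩ := onep r
  have w0 : ∀ i, 0 ≤ m i / ‖z - ζ i‖ := fun i => by have := h.hm i; positivity
  have hρ : 0 < ‖1 - z‖ := norm_pos_iff.2 (sub_ne_zero.2 hz1.symm)
  have k1 : ‖(1 + HH ζ m z)⁻¹‖ * (1 / ‖1 - z‖ + ∑' i, m i / ‖z - ζ i‖) ≤ 2000 := by
    rw [norm_inv, inv_mul_le_iff₀ (by linarith)]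
    linarith
  set y := ‖(1 + HH ζ m z)⁻¹‖ with hy
  have y0 : 0 ≤ y := norm_nonneg _
  have y1 : y ≤ 1 := by
    rw [hy, norm_inv]
    exact inv_le_one_of_one_le₀ o1
  have y2 : y ≤ 2000 * ‖1 - z‖ := by
    rw [← div_le_iff₀ hρ, div_eq_mul_one_div]
    exact le_trans (mul_le_mul_of_nonneg_left (le_add_of_nonneg_right (tsum_nonneg w0)) y0) k1
  refine ⟨k1, lemA0 y0 hρ.le (by have : 0 < 1 / κ := by positivity
                                 linarith) h0 h1 y1 (y2.trans ?_), fun i => ?_⟩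
  · gcongr
    have : 0 < 1 / κ := by positivity
    linarith
  · have ht : 0 < ‖z - ζ i‖ := norm_pos_iff.2 (sub_ne_zero.2 (hi i))
    refine lemA y0 ht.le (norm_nonneg _) (h.hm i) hκ h0 h1 (hA i) ?_ y1 y2 ?_
    · have := norm_sub_le (1 - ζ i) (z - ζ i)
      rwa [sub_sub_sub_cancel_right] at this
    · have := h.hm i
      rw [← div_le_iff₀ (by positivity), div_eq_mul_inv, inv_div]
      refine le_trans (mul_le_mul_of_nonneg_left (le_add_of_nonneg_of_le (by positivity)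
        (s.le_tsum i fun j _ => w0 j)) y0) k1

lemma Hyp.hold (h : Hyp ζ m) {α κ : ℝ} (h0 : 0 < α) (h1 : α < 1) (hκ : 0 < κ)
    (hA : ∀ i, κ * ‖1 - ζ i‖ ^ (1 - α) ≤ m i ^ α) {z z' : ℂ} (hz : ‖z‖ ≤ 1) (hz1 : z ≠ 1)
    (hi : ∀ i, z ≠ ζ i) (hz' : ‖z'‖ ≤ 1) (hz1' : z' ≠ 1) (hi' : ∀ i, z' ≠ ζ i) :
    ‖(1 + HH ζ m z)⁻¹ - (1 + HH ζ m z')⁻¹‖ ≤ 16000 * (4000 * (1 + 1 / κ)) * ‖z - z'‖ ^ α := by
  obtain ⟨s, r, -⟩ := h.low hz hz1 hi
  obtain ⟨s', r', -⟩ := h.low hz' hz1' hi'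
  obtain ⟨a1, a2, a3⟩ := h.small h0 h1 hκ hA hz hz1 hi
  obtain ⟨b1, b2, b3⟩ := h.small h0 h1 hκ hA hz' hz1' hi'
  have s3 : Summable fun i => tm ζ m i z :=
    (s.mul_left 2).of_norm_bounded fun i => h.tm_le hz (hi i)
  have s3' : Summable fun i => tm ζ m i z' :=
    (s'.mul_left 2).of_norm_bounded fun i => h.tm_le hz' (hi' i)
  have n : 1 + HH ζ m z ≠ 0 := norm_pos_iff.1 (by linarith [(onep r).1])
  have n' : 1 + HH ζ m z' ≠ 0 := norm_pos_iff.1 (by linarith [(onep r').1])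
  set C := 4000 * (1 + 1 / κ) with hC
  have C0 : 0 ≤ C := by positivity
  set P := (1 + HH ζ m z)⁻¹ * (1 + HH ζ m z')⁻¹ with hP
  have e : (1 + HH ζ m z)⁻¹ - (1 + HH ζ m z')⁻¹ =
      (((1 : ℝ) : ℂ) / (1 - z') - ((1 : ℝ) : ℂ) / (1 - z)) * P +
        ∑' i, (tm ζ m i z' - tm ζ m i z) * P := by
    rw [tsum_mul_right, s3'.tsum_sub s3, ← add_mul, ← add_sub_add_comm, ← HH, ← HH, hP]
    field_simp
    ring
  set y := ‖(1 + HH ζ m z)⁻¹‖ with hy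
  set y' := ‖(1 + HH ζ m z')⁻¹‖ with hy'
  have y0 : 0 ≤ y := norm_nonneg _
  have y0' : 0 ≤ y' := norm_nonneg _
  have nP : ‖P‖ = y' * y := by rw [hP, norm_mul, mul_comm]
  have hρ : 0 < ‖1 - z‖ := norm_pos_iff.2 (sub_ne_zero.2 hz1.symm)
  have hρ' : 0 < ‖1 - z'‖ := norm_pos_iff.2 (sub_ne_zero.2 hz1'.symm)
  set D := ‖z - z'‖ ^ α with hD
  have D0 : 0 ≤ D := by positivity
  have c1 : ‖(((1 : ℝ) : ℂ) / (1 - z') - ((1 : ℝ) : ℂ) / (1 - z)) * P‖ ≤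
      2 * C * D * (y' / ‖1 - z'‖ + y / ‖1 - z‖) := by
    rw [norm_mul, nP, n0 (norm_pos_iff.1 hρ') (norm_pos_iff.1 hρ) zero_le_one, one_mul,
      sub_sub_sub_cancel_left]
    refine lemB (norm_nonneg _) hρ' hρ ?_ y0' y0 C0 h0 h1 b2 a2
    have := norm_sub_le (1 - z') (1 - z)
    rwa [sub_sub_sub_cancel_left] at this
  have c2 : ‖∑' i, (tm ζ m i z' - tm ζ m i z) * P‖ ≤ 4 * C * D *
      (y' * (∑' i, m i / ‖z' - ζ i‖) + y * ∑' i, m i / ‖z - ζ i‖) := by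
    refine tsum_of_norm_bounded (((s'.hasSum.mul_left y').add (s.hasSum.mul_left y)).mul_left _)
      fun i => ?_
    have hm := h.hm i
    have k := n5 (ss_re (h.hζ i) hz') (ss_ne (h.hζ i) (hi' i)) (ss_re (h.hζ i) hz)
      (ss_ne (h.hζ i) (hi i)) hm.le (δ := m i * ‖1 - ζ i‖) (by positivity)
    rw [ss_sub (h.hζ i), ss_norm (h.hζ i), ss_norm (h.hζ i), norm_sub_rev z' z] at k
    have k2 := lemB (norm_nonneg (z - z')) (norm_pos_iff.2 (sub_ne_zero.2 (hi' i)))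
      (norm_pos_iff.2 (sub_ne_zero.2 (hi i))) (by
        have := norm_sub_le (z' - ζ i) (z - ζ i)
        rwa [sub_sub_sub_cancel_right, norm_sub_rev] at this) y0' y0 C0 h0 h1 (b3 i) (a3 i)
    rw [norm_mul, nP]
    calc _ ≤ 2 * (m i * (‖z - z'‖ / (‖z' - ζ i‖ * ‖z - ζ i‖))) * (y' * y) := by
          gcongr
          exact k
      _ = 2 * m i * (‖z - z'‖ / (‖z' - ζ i‖ * ‖z - ζ i‖) * (y' * y)) := by ring
      _ ≤ 2 * m i * (2 * C * D * (y' / ‖z' - ζ i‖ + y / ‖z - ζ i‖)) := by gcongr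
      _ = _ := by ring
  rw [e]
  refine (norm_add_le _ _).trans ((add_le_add c1 c2).trans ?_)
  have CD : 0 ≤ C * D := by positivity
  have p1 : 0 ≤ y / ‖1 - z‖ := by positivity
  have p2 : 0 ≤ y' / ‖1 - z'‖ := by positivity
  rw [mul_add, mul_one_div] at a1 b1
  nlinarith [mul_le_mul_of_nonneg_left (add_le_add a1 b1) CD, mul_nonneg CD (add_nonneg p1 p2)]

lemma Hyp.diff (h : Hyp ζ m) : DifferentiableOn ℂ (HH ζ m) (ball 0 1) := by
  have n : ∀ z : ℂ, ‖z‖ < 1 → ∀ i, z ≠ ζ i := fun z hz i e => by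
    rw [e, h.hζ i] at hz
    exact lt_irrefl _ hz
  have s := (h.low (z := 0) (by simp) zero_ne_one (n 0 (by simp))).1
  simp only [zero_sub, norm_neg, h.hζ, div_one] at s
  intro z hz
  rw [mem_ball_zero_iff] at hz
  obtain ⟨R, h1, h2⟩ := exists_between hz
  have k := Complex.differentiableOn_tsum_of_summable_norm (F := tm ζ m) (U := ball 0 R)
    ((s.div_const (1 - R)).mul_left 2) (fun i w hw => ?_) isOpen_ball (fun i w hw => ?_)
  · refine (DifferentiableAt.add ?_ (k.differentiableAt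
      (isOpen_ball.mem_nhds (mem_ball_zero_iff.2 h1)))).differentiableWithinAt
    refine (differentiableAt_const _).div (by fun_prop) (sub_ne_zero.2 fun e => ?_)
    rw [← e, norm_one] at hz
    exact lt_irrefl _ hz
  · have hw' := (mem_ball_zero_iff.1 hw).trans h2
    have k1 := ss_ne (h.hζ i) (n w hw' i)
    have k2 := n1 (ss_re (h.hζ i) hw'.le) (δ := m i * ‖1 - ζ i‖) (by have := h.hm i; positivity)
    have k3 := norm_pos_iff.1 ((norm_pos_iff.2 k1).trans_le k2)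
    refine DifferentiableAt.differentiableWithinAt ?_
    unfold tm hh
    refine ((differentiableAt_const _).div ?_ k1).add ((differentiableAt_const _).div ?_ k3) <;>
      unfold ss <;> fun_prop
  · have hw' := mem_ball_zero_iff.1 hw
    refine (h.tm_le (hw'.trans h2).le (n w (hw'.trans h2) i)).trans ?_
    have := h.hm i
    have k := norm_sub_norm_le (ζ i) w
    rw [h.hζ i, norm_sub_rev] at k
    gcongr
    linarith

theorem Hyp.peak (h : Hyp ζ m) {α κ : ℝ} (h0 : 0 < α) (h1 : α < 1) (hκ : 0 < κ)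
    (hA : ∀ i, κ * ‖1 - ζ i‖ ^ (1 - α) ≤ m i ^ α) : IsClosed (insert 1 (range ζ)) ∧
    ∃ f : ℂ → ℂ, DifferentiableOn ℂ f (ball 0 1) ∧ ContinuousOn f (closedBall 0 1) ∧
      (∃ C : ℝ, ∀ a ∈ sphere (0 : ℂ) 1, ∀ b ∈ sphere (0 : ℂ) 1, ‖f a - f b‖ ≤ C * ‖a - b‖ ^ α) ∧
      (∀ a ∈ insert 1 (range ζ), f a = 1) ∧
      ∀ a ∈ sphere (0 : ℂ) 1, a ∉ insert 1 (range ζ) → ‖f a‖ < 1 := by
  classical
  set E := insert 1 (range ζ) with hE
  have mE : ∀ z, z ∉ E → z ≠ 1 ∧ ∀ i, z ≠ ζ i := fun z hz =>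
    ⟨fun e => hz (Or.inl e), fun i e => hz (Or.inr ⟨i, e.symm⟩)⟩
  have nE : ∀ z ∈ E, ‖z‖ = 1 := by
    rintro z (rfl | ⟨i, rfl⟩)
    exacts [norm_one, h.hζ i]
  set g : ℂ → ℂ := fun z => if z ∈ E then 0 else (1 + HH ζ m z)⁻¹ with hg
  set C := 4000 * (1 + 1 / κ) with hC
  have C0 : 0 ≤ C := by positivity
  have k1 : ∀ z, ‖z‖ ≤ 1 → z ∉ E → ∀ z' ∈ E,
      ‖(1 + HH ζ m z)⁻¹‖ ≤ 16000 * C * ‖z - z'‖ ^ α := by
    intro z hz hzE z' hz'
    obtain ⟨-, a2, a3⟩ := h.small h0 h1 hκ hA hz (mE z hzE).1 (mE z hzE).2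
    refine le_trans (b := C * ‖z - z'‖ ^ α) ?_ (by gcongr; linarith)
    rcases hz' with rfl | ⟨i, rfl⟩
    · rwa [norm_sub_rev]
    · exact a3 i
  have k2 : ∀ z, ‖z‖ ≤ 1 → ∀ z', ‖z'‖ ≤ 1 → ‖g z - g z'‖ ≤ 16000 * C * ‖z - z'‖ ^ α := by
    intro z hz z' hz'
    by_cases e : z ∈ E <;> by_cases e' : z' ∈ E <;> simp only [hg, e, e', if_true, if_false]
    · rw [sub_zero, norm_zero]
      positivity
    · rw [zero_sub, norm_neg, norm_sub_rev]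
      exact k1 z' hz' e' z e
    · rw [sub_zero]
      exact k1 z hz e z' e'
    · exact h.hold h0 h1 hκ hA hz (mE z e).1 (mE z e).2 hz' (mE z' e').1 (mE z' e').2
  have k3 : ContinuousOn g (closedBall 0 1) := by
    intro z hz
    rw [ContinuousWithinAt, tendsto_iff_norm_sub_tendsto_zero]
    have c : Continuous fun w : ℂ => 16000 * C * ‖w - z‖ ^ α :=
      continuous_const.mul (Continuous.rpow_const (by fun_prop) fun _ => Or.inr h0.le)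
    have c' := c.tendsto z
    rw [sub_self, norm_zero, Real.zero_rpow h0.ne', mul_zero] at c'
    exact squeeze_zero' (Eventually.of_forall fun _ => norm_nonneg _)
      (eventually_nhdsWithin_of_forall fun w hw =>
        k2 w (mem_closedBall_zero_iff.1 hw) z (mem_closedBall_zero_iff.1 hz))
      (c'.mono_left nhdsWithin_le_nhds)
  have k4 : ∀ z, ‖z‖ ≤ 1 → z ∉ E → 0 ≤ (HH ζ m z).re := fun z hz e =>
    (h.low hz (mE z e).1 (mE z e).2).2.1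
  have k5 : ∀ z, ‖z‖ ≤ 1 → z ∉ E → 1 + HH ζ m z ≠ 0 := fun z hz e =>
    norm_pos_iff.1 (by linarith [(onep (k4 z hz e)).1])
  refine ⟨?_, fun z => 1 - g z, ?_, continuousOn_const.sub k3, ⟨16000 * C, fun a ha b hb => ?_⟩,
    fun a ha => by simp [hg, ha], fun a ha e => ?_⟩
  · convert k3.preimage_isClosed_of_isClosed isClosed_closedBall (isClosed_singleton (x := 0))
    ext z
    simp only [mem_inter_iff, mem_closedBall_zero_iff, mem_preimage, mem_singleton_iff]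
    refine ⟨fun e => ⟨(nE z e).le, by simp [hg, e]⟩, fun ⟨e1, e2⟩ => by_contra fun e => ?_⟩
    simp only [hg, e, if_false, inv_eq_zero] at e2
    exact k5 z e1 e e2
  · have nb : ∀ z ∈ ball (0 : ℂ) 1, z ∉ E := fun z hz e => by
      rw [mem_ball_zero_iff, nE z e] at hz
      exact lt_irrefl _ hz
    refine (differentiableOn_const 1).sub ((((differentiableOn_const 1).add h.diff).inv
      fun z hz => k5 z (mem_ball_zero_iff.1 hz).le (nb z hz)).congr fun z hz => ?_)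
    simp [hg, nb z hz]
  · rw [sub_sub_sub_cancel_left, norm_sub_rev]
    exact k2 a (mem_sphere_zero_iff_norm.1 ha).le b (mem_sphere_zero_iff_norm.1 hb).le
  · have ha' := (mem_sphere_zero_iff_norm.1 ha).le
    have n := k5 a ha' e
    simp only [hg, e, if_false]
    rw [show 1 - (1 + HH ζ m a)⁻¹ = HH ζ m a / (1 + HH ζ m a) by field_simp; ring, norm_div,
      div_lt_one (norm_pos_iff.2 n)]
    exact (onep (k4 a ha' e)).2

end Pool.Agent.H.MP_345ce5_an
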