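import Mathlib

set_option autoImplicit false

open Set Filter Topology Metric MeasureTheory Real

namespace Pool.Agent.H.MP_345ce5_an

lemma jens (f : ℂ → ℂ) (hf : DifferentiableOn ℂ f (ball 0 1)) (hne : ∃ z ∈ ball (0 : ℂ) 1, f z ≠ 0) :
    ∃ L : ℝ, ∀ R : ℝ, 1 / 2 ≤ R → R < 1 → ∀ φ : ℝ → ℝ, IntervalIntegrable φ volume 0 (2 * π) →
      (∀ θ ∈ Ioc 0 (2 * π), ‖f (circleMap 0 R θ)‖ ≤ exp (φ θ)) → L ≤ ∫ θ in 0..2 * π, φ θ := by
  have ha := hf.analyticOnNhd isOpen_ball
  have hz : ({z | f z = 0} ∩ ball 0 1).Countable := by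
    refine (HereditarilyLindelofSpace.isLindelof _).countable_of_isDiscrete
      (isDiscrete_of_codiscreteWithin ?_)
    obtain ⟨z, hz, h0⟩ := hne
    exact (ha.eqOn_zero_or_eventually_ne_zero_of_preconnected
      (convex_ball _ _).isPreconnected).resolve_left fun h => h0 (h hz)
  refine ⟨2 * π * ((meromorphicOrderAt f 0).untop₀ * log (1 / 2) +
    log ‖meromorphicTrailingCoeffAt f 0‖), fun R h1 h2 φ hφ hb => ?_⟩
  have hR : 0 < R := by linarith
  have hsub : closedBall (0 : ℂ) |R| ⊆ ball 0 1 := by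
    rw [abs_of_pos hR]
    exact closedBall_subset_ball h2
  have ha' := ha.mono hsub
  have h3 := ha'.meromorphicOn.circleAverage_log_norm hR.ne'
  have h4 : 0 ≤ ∑ᶠ u, MeromorphicOn.divisor f (closedBall (0 : ℂ) |R|) u * log (R * ‖0 - u‖⁻¹) := by
    refine finsum_nonneg fun u => ?_
    by_cases hu : u ∈ closedBall (0 : ℂ) |R|
    · refine mul_nonneg (by exact_mod_cast MeromorphicOn.AnalyticOnNhd.divisor_nonneg ha' u) ?_
      rcases eq_or_ne u 0 with rfl | h0
      · simp
      · rw [abs_of_pos hR, mem_closedBall_zero_iff] at hu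
        refine log_nonneg ?_
        rw [zero_sub, norm_neg, ← div_eq_mul_inv, one_le_div (norm_pos_iff.2 h0)]
        exact hu
    · simp [hu]
  have h5 : ((meromorphicOrderAt f 0).untop₀ : ℝ) * log (1 / 2) ≤
      MeromorphicOn.divisor f (closedBall (0 : ℂ) |R|) 0 * log R := by
    have h6 := MeromorphicOn.AnalyticOnNhd.divisor_nonneg ha' 0
    rw [← MeromorphicOn.divisor_apply ha'.meromorphicOn (by simp)]
    exact mul_le_mul_of_nonneg_left (log_le_log (by norm_num) h1) (by exact_mod_cast h6)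
  have h6 : ∫ θ in 0..2 * π, log ‖f (circleMap 0 R θ)‖ ≤ ∫ θ in 0..2 * π, φ θ := by
    refine intervalIntegral.integral_mono_ae_restrict (by positivity)
      (ha'.mono sphere_subset_closedBall).meromorphicOn.circleIntegrable_log_norm hφ ?_
    rw [← Measure.restrict_congr_set Ioc_ae_eq_Icc, EventuallyLE,
      ae_restrict_iff' measurableSet_Ioc]
    filter_upwards [(hz.preimage_circleMap 0 hR.ne').ae_notMem volume] with θ h7 h8
    have h9 : f (circleMap 0 R θ) ≠ 0 := fun h => h7 ⟨h, by simpa [abs_of_pos hR] using h2⟩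
    exact (log_le_iff_le_exp (norm_pos_iff.2 h9)).2 (hb θ h8)
  refine le_trans ?_ h6
  rw [circleAverage_def, smul_eq_mul, inv_mul_eq_iff_eq_mul₀ (by positivity)] at h3
  rw [h3]
  gcongr
  linarith

lemma taylor (f : ℂ → ℂ) (hf : DifferentiableOn ℂ f (ball 0 1)) (B : ℕ → ℝ)
    (hB : ∀ n, ∀ z ∈ ball (0 : ℂ) 1, ‖iteratedDeriv n f z‖ ≤ B n) {ζ : ℂ} (hζ : ‖ζ‖ = 1)
    (h0 : ∀ n, Tendsto (iteratedDeriv n f) (𝓝[ball 0 1] ζ) (𝓝 0)) (n : ℕ) :
    ∀ k, ∀ z ∈ ball (0 : ℂ) 1, ‖iteratedDeriv k f z‖ ≤ B (k + n) * ‖z - ζ‖ ^ n / n.factorial := by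
  induction n with
  | zero => simpa using hB
  | succ n ih =>
    intro k z hz
    have hγ : ∀ s : ℝ, 0 < s → s ≤ 1 → ζ + s * (z - ζ) ∈ ball (0 : ℂ) 1 := by
      intro s h1 h2
      rw [mem_ball_zero_iff] at hz ⊢
      rw [show ζ + s * (z - ζ) = ((1 - s : ℝ) : ℂ) * ζ + s * z by push_cast; ring]
      refine (norm_add_le _ _).trans_lt ?_
      rw [norm_mul, norm_mul, hζ, Complex.norm_real, Complex.norm_real, Real.norm_eq_abs,
        Real.norm_eq_abs, abs_of_nonneg (by linarith), abs_of_pos h1]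
      nlinarith
    have hd : ∀ s : ℝ, 0 < s → s ≤ 1 → HasDerivAt (fun s : ℝ => iteratedDeriv k f (ζ + s * (z - ζ)))
        (iteratedDeriv (k + 1) f (ζ + s * (z - ζ)) * (z - ζ)) s := by
      intro s h1 h2
      have a1 : DifferentiableAt ℂ (iteratedDeriv k f) (ζ + s * (z - ζ)) := by
        rw [show iteratedDeriv k f = deriv^[k] f from iteratedDeriv_eq_iterate]
        exact (((hf.analyticOnNhd isOpen_ball).iterated_deriv k) _ (hγ s h1 h2)).differentiableAt
      have a2 : HasDerivAt (fun w : ℂ => ζ + w * (z - ζ)) (z - ζ) s := by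
        simpa using ((hasDerivAt_id (s : ℂ)).mul_const (z - ζ)).const_add ζ
      rw [iteratedDeriv_succ]
      exact (a1.hasDerivAt.comp (s : ℂ) a2).comp_ofReal
    set M := B (k + (n + 1)) * ‖z - ζ‖ ^ (n + 1) / (n + 1).factorial with hM
    have key : ∀ a : ℝ, 0 < a → a ≤ 1 → ‖iteratedDeriv k f z‖ ≤
        ‖iteratedDeriv k f (ζ + a * (z - ζ))‖ + M := by
      intro a h1 h2
      have hM0 : 0 ≤ M := by
        have := (norm_nonneg _).trans (hB (k + (n + 1)) z hz)
        positivity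
      have := image_norm_le_of_norm_deriv_right_le_deriv_boundary (a := a) (b := 1)
        (fun s hs => (hd s (h1.trans_le hs.1) hs.2).continuousAt.continuousWithinAt)
        (fun s hs => (hd s (h1.trans_le hs.1) hs.2.le).hasDerivWithinAt)
        (B := fun s => ‖iteratedDeriv k f (ζ + a * (z - ζ))‖ + M * s ^ (n + 1))
        (B' := fun s => M * ((n + 1 : ℕ) * s ^ n)) (le_add_of_nonneg_right (by positivity))
        (fun s => ((hasDerivAt_pow (n + 1) s).const_mul M).const_add _)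
        (fun s hs => ?_) (x := 1) ⟨h2, le_rfl⟩
      · simpa using this
      · have hs0 := h1.trans_le hs.1
        rw [norm_mul]
        refine (mul_le_mul_of_nonneg_right (ih (k + 1) _ (hγ s hs0 hs.2.le))
          (norm_nonneg _)).trans (le_of_eq ?_)
        rw [add_sub_cancel_left, norm_mul, Complex.norm_real, Real.norm_eq_abs, abs_of_pos hs0, hM,
          show k + 1 + n = k + (n + 1) by ring, Nat.factorial_succ]
        push_cast
        field_simp
        ring
    have t1 : Tendsto (fun a : ℝ => ζ + a * (z - ζ)) (𝓝[>] 0) (𝓝[ball 0 1] ζ) := by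
      refine tendsto_nhdsWithin_iff.2 ⟨?_, ?_⟩
      · have : Continuous fun a : ℝ => ζ + a * (z - ζ) := by fun_prop
        simpa using (this.tendsto 0).mono_left nhdsWithin_le_nhds
      · filter_upwards [Ioc_mem_nhdsGT zero_lt_one] with a ha using hγ a ha.1 ha.2
    have t2 := (((h0 k).comp t1).norm).add_const M
    rw [norm_zero, zero_add] at t2
    refine ge_of_tendsto t2 ?_
    filter_upwards [Ioc_mem_nhdsGT zero_lt_one] with a ha using key a ha.1 ha.2

lemma flat (f : ℂ → ℂ) (hf : DifferentiableOn ℂ f (ball 0 1)) {α C : ℝ} (hα : 0 < α)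
    (hB : ∀ n, ∀ z ∈ ball (0 : ℂ) 1,
      ‖iteratedDeriv n f z‖ ≤ C ^ (n + 1) * (n.factorial : ℝ) ^ (1 + 1 / α)) :
    ∃ A c : ℝ, 0 < c ∧ ∀ z ∈ ball (0 : ℂ) 1, ‖f z‖ ≤ exp A ∧ ∀ ζ : ℂ, ‖ζ‖ = 1 →
      (∀ n, Tendsto (iteratedDeriv n f) (𝓝[ball 0 1] ζ) (𝓝 0)) → ∀ d : ℝ, 0 < d →
      ‖z - ζ‖ ≤ d → ‖f z‖ ≤ exp (A - c * d ^ (-α)) := by
  set D := max C 1 with hD
  have D1 : 1 ≤ D := le_max_right _ _
  have C0 : 0 ≤ C := by simpa using (norm_nonneg _).trans (hB 0 0 (by simp))
  have CD : C ≤ D := le_max_left _ _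
  refine ⟨log D + 1, (exp 1 * D) ^ (-α), by positivity, fun z hz => ⟨?_, fun ζ hζ h0 d hd hzd => ?_⟩⟩
  · have := hB 0 z hz
    simp only [iteratedDeriv_zero, zero_add, pow_one, Nat.factorial_zero, Nat.cast_one, one_rpow,
      mul_one] at this
    rw [exp_add, exp_log (by linarith)]
    nlinarith [add_one_le_exp 1]
  · rw [← mul_rpow (by positivity) hd.le]
    set x := (exp 1 * D * d) ^ (-α) with hx
    set n := ⌊x⌋₊ with hn
    have h1 := taylor f hf _ hB hζ h0 n 0 z hz
    have f0 : (0 : ℝ) < n.factorial := by positivity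
    rw [iteratedDeriv_zero, zero_add, rpow_add f0, rpow_one] at h1
    have h2 : (n.factorial : ℝ) ^ (1 / α) ≤ ((exp 1 * D * d)⁻¹) ^ n := by
      calc _ ≤ (x ^ n) ^ (1 / α) := by
            gcongr
            calc _ ≤ (n : ℝ) ^ n := by exact_mod_cast Nat.factorial_le_pow n
              _ ≤ _ := by
                gcongr
                exact Nat.floor_le (by positivity)
        _ = _ := by
            rw [← rpow_pow_comm (by positivity), hx, ← rpow_mul (by positivity),
              show -α * (1 / α) = -1 by field_simp, rpow_neg_one]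
    have h3 : x - 1 ≤ n := by linarith [Nat.lt_floor_add_one x]
    calc _ ≤ _ := h1
      _ = C ^ (n + 1) * (n.factorial : ℝ) ^ (1 / α) * ‖z - ζ‖ ^ n := by field_simp
      _ ≤ D ^ (n + 1) * ((exp 1 * D * d)⁻¹) ^ n * d ^ n := by gcongr
      _ = D * exp (-n) := by
          rw [exp_neg, ← exp_one_pow n]
          simp only [inv_pow, mul_pow]
          field_simp
          ring
      _ ≤ _ := by
          rw [add_sub_assoc, exp_add, exp_log (by linarith)]
          gcongr
          linarith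

theorem notZ {α : ℝ} (hα : 0 < α) (E : Set ℂ) (hE : ∀ ζ ∈ E, ‖ζ‖ = 1) (r d : ℕ → ℝ)
    (hr : ∀ j, 0 < r j) (hr' : ∀ j, r j ≤ 1) (hrr : ∀ i j, i < j → 2 * r j ≤ r i)
    (hd : ∀ j, 0 < d j)
    (hcov : ∀ j, ∀ θ ∈ Ioc (r j) (2 * r j), ∃ ζ ∈ E, ‖circleMap 0 1 θ - ζ‖ ≤ d j / 2)
    (hdiv : Tendsto (fun J => ∑ j ∈ Finset.range J, r j * d j ^ (-α)) atTop atTop)
    (f : ℂ → ℂ) (hf : DifferentiableOn ℂ f (ball 0 1)) {C : ℝ}
    (hB : ∀ n, ∀ z ∈ ball (0 : ℂ) 1,
      ‖iteratedDeriv n f z‖ ≤ C ^ (n + 1) * (n.factorial : ℝ) ^ (1 + 1 / α))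
    (h0 : ∀ n, ∀ ζ ∈ E, Tendsto (iteratedDeriv n f) (𝓝[ball 0 1] ζ) (𝓝 0)) :
    ∀ z ∈ ball (0 : ℂ) 1, f z = 0 := by
  by_contra hne
  push Not at hne
  obtain ⟨L, hL⟩ := jens f hf hne
  obtain ⟨A, c, hc, hA⟩ := flat f hf hα hB
  obtain ⟨J, hJ⟩ := (hdiv.eventually_gt_atTop ((2 * π * A - L) / c)).exists
  have e1 : ∀ᶠ R in 𝓝[<] (1 : ℝ), ∀ j ∈ Finset.range J, 1 - d j / 2 ≤ R :=
    (eventually_all_finset _).2 fun j _ =>
      mem_of_superset (Ico_mem_nhdsLT (by linarith [hd j])) fun x hx => hx.1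
  obtain ⟨R, hR1, hR2, hR3⟩ := (e1.and (Ico_mem_nhdsLT (show (1 / 2 : ℝ) < 1 by norm_num))).exists
  have hi : ∀ j, IntervalIntegrable ((Ioc (r j) (2 * r j)).indicator fun _ => d j ^ (-α))
      volume 0 (2 * π) := fun j => ((integrable_indicator_iff measurableSet_Ioc).2
        (integrableOn_const (by simp))).intervalIntegrable
  have hi' : IntervalIntegrable (fun θ => ∑ j ∈ Finset.range J,
      (Ioc (r j) (2 * r j)).indicator (fun _ => d j ^ (-α)) θ) volume 0 (2 * π) := by
    have := IntervalIntegrable.sum (Finset.range J) fun j _ => hi j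
    rwa [Finset.sum_fn] at this
  have h1 := hL R hR2 hR3 (fun θ => A - c * ∑ j ∈ Finset.range J,
      (Ioc (r j) (2 * r j)).indicator (fun _ => d j ^ (-α)) θ)
      (intervalIntegrable_const.sub (hi'.const_mul c)) fun θ _ => ?_
  · rw [intervalIntegral.integral_sub intervalIntegrable_const (hi'.const_mul c),
      intervalIntegral.integral_const_mul, intervalIntegral.integral_finsetSum fun j _ => hi j,
      Finset.sum_congr rfl (g := fun j => r j * d j ^ (-α))] at h1
    · rw [div_lt_iff₀ hc] at hJ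
      simp only [intervalIntegral.integral_const, sub_zero, smul_eq_mul] at h1
      linarith
    · intro j _
      rw [intervalIntegral.integral_eq_integral_of_support_subset,
        integral_indicator measurableSet_Ioc]
      · have := hr j
        simp only [integral_const, MeasurableSet.univ, measureReal_restrict_apply, univ_inter,
          volume_real_Ioc, smul_eq_mul]
        rw [max_eq_left (by linarith)]
        ring
      · refine support_indicator_subset.trans (Ioc_subset_Ioc (hr j).le ?_)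
        linarith [hr' j, two_le_pi]
  · have hb : circleMap 0 R θ ∈ ball (0 : ℂ) 1 := by
      simpa [abs_of_pos (show 0 < R by linarith)] using hR3
    by_cases h : ∃ j ∈ Finset.range J, θ ∈ Ioc (r j) (2 * r j)
    · obtain ⟨j, hj, hθ⟩ := h
      rw [Finset.sum_eq_single_of_mem j hj, indicator_of_mem hθ]
      · obtain ⟨ζ, hζ, h2⟩ := hcov j θ hθ
        refine (hA _ hb).2 ζ (hE ζ hζ) (fun n => h0 n ζ hζ) _ (hd j) ?_
        have h3 : ‖circleMap 0 R θ - circleMap 0 1 θ‖ = 1 - R := by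
          rw [circleMap, circleMap, add_sub_add_left_eq_sub, ← sub_mul, norm_mul,
            Complex.norm_exp_ofReal_mul_I, mul_one, ← Complex.ofReal_sub, Complex.norm_real,
            Real.norm_eq_abs, abs_sub_comm, abs_of_pos (by linarith)]
        linarith [norm_sub_le_norm_sub_add_norm_sub (circleMap 0 R θ) (circleMap 0 1 θ) ζ,
          hR1 j hj]
      · intro i _ hij
        refine indicator_of_notMem (fun hθ' => ?_) _
        rcases lt_or_gt_of_ne hij with h | h
        · linarith [hrr _ _ h, hθ.2, hθ'.1]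
        · linarith [hrr _ _ h, hθ.1, hθ'.2]
    · push Not at h
      rw [Finset.sum_eq_zero fun j hj => indicator_of_notMem (h j hj) _, mul_zero, sub_zero]
      exact (hA _ hb).1

end Pool.Agent.H.MP_345ce5_an
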