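import Pool.Agent.H.MP_345ce5_an.B
import Pool.Agent.H.MP_345ce5_an.C

set_option autoImplicit false

open Set Filter Topology Metric Real

namespace Pool.Agent.H.MP_345ce5_an

lemma harm0 (N : ℕ) : ∑ n ∈ Finset.range N, 1 / ((n : ℝ) + 1) ≤ 1 + log N := by
  have := harmonic_le_one_add_log N
  simpa [harmonic] using this

lemma harm {N k : ℕ} (h : k < N) : ∑ n ∈ Finset.range N, 1 / |(n : ℝ) - k| ≤ 2 * (1 + log N) := by
  have mono : ∀ M ≤ N, ∑ n ∈ Finset.range M, 1 / ((n : ℝ) + 1) ≤ 1 + log N := fun M hM =>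
    (Finset.sum_le_sum_of_subset_of_nonneg (Finset.range_mono hM)
      fun _ _ _ => by positivity).trans (harm0 N)
  obtain ⟨M, rfl⟩ := Nat.exists_eq_add_of_lt h
  rw [show k + M + 1 = k + (M + 1) by ring, Finset.sum_range_add, Finset.sum_range_succ',
    ← Finset.sum_range_reflect]
  have h1 : ∑ j ∈ Finset.range k, 1 / |((k - 1 - j : ℕ) : ℝ) - k| =
      ∑ n ∈ Finset.range k, 1 / ((n : ℝ) + 1) := Finset.sum_congr rfl fun j hj => by
    obtain ⟨c, rfl⟩ := Nat.exists_eq_add_of_lt (Finset.mem_range.1 hj)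
    rw [show j + c + 1 - 1 - j = c by omega, abs_sub_comm]
    push_cast
    rw [abs_of_nonneg (by linarith [(Nat.cast_nonneg j : (0 : ℝ) ≤ j)])]
    ring
  have h2 : ∑ j ∈ Finset.range M, 1 / |((k + (j + 1) : ℕ) : ℝ) - k| =
      ∑ n ∈ Finset.range M, 1 / ((n : ℝ) + 1) := Finset.sum_congr rfl fun j _ => by
    push_cast
    rw [add_sub_cancel_left, abs_of_nonneg (by positivity)]
  rw [h1, h2]
  have a := mono k (by omega)
  have b := mono M (by omega)
  simp only [add_zero, sub_self, abs_zero, div_zero]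
  rw [show k + (M + 1) = k + M + 1 by ring]
  linarith

lemma chord (x y : ℝ) : ‖circleMap 0 1 x - circleMap 0 1 y‖ ≤ |x - y| ∧
    (|x - y| ≤ π → |x - y| / 2 ≤ ‖circleMap 0 1 x - circleMap 0 1 y‖) := by
  have e : circleMap 0 1 x - circleMap 0 1 y =
      Complex.exp (y * Complex.I) * (Complex.exp (Complex.I * (x - y : ℝ)) - 1) := by
    simp only [circleMap, zero_add, Complex.ofReal_one, one_mul, mul_sub, mul_one,
      ← Complex.exp_add]
    congr 2
    push_cast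
    ring
  rw [e, norm_mul, Complex.norm_exp_ofReal_mul_I, one_mul]
  refine ⟨norm_exp_I_mul_ofReal_sub_one_le, fun h => ?_⟩
  rw [Complex.norm_exp_I_mul_ofReal_sub_one, norm_mul, Real.norm_eq_abs, Real.norm_eq_abs,
    abs_two]
  have h1 := mul_abs_le_abs_sin (x := (x - y) / 2) (by rw [abs_div, abs_two]; linarith)
  rw [abs_div, abs_two] at h1
  have h2 : 1 / 2 ≤ 2 / π := by
    rw [div_le_div_iff₀ two_pos pi_pos]
    linarith [pi_le_four]
  nlinarith [abs_nonneg (x - y)]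

noncomputable def pt (r : ℕ → ℝ) (N : ℕ → ℕ) (j n : ℕ) : ℂ :=
  circleMap 0 1 (2 * r j - n * (r j / N j))

lemma pt_one {r : ℕ → ℝ} {N : ℕ → ℕ} {j n : ℕ} (hr : 0 < r j) (hr1 : r j ≤ 1) (hn : n < N j) :
    r j / 2 ≤ ‖1 - pt r N j n‖ ∧ ‖1 - pt r N j n‖ ≤ 2 * r j := by
  have h0 : (0 : ℝ) < N j := by exact_mod_cast Nat.zero_lt_of_lt hn
  have h1 : n * (r j / N j) ≤ r j := by
    rw [← mul_div_assoc, div_le_iff₀ h0, mul_comm]
    gcongr
  have h2 : 0 ≤ n * (r j / N j) := by positivity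
  obtain ⟨h3, h4⟩ := chord 0 (2 * r j - n * (r j / N j))
  rw [zero_sub, abs_neg, abs_of_nonneg (by linarith), show circleMap 0 1 0 = 1 by simp [circleMap]]
    at h3 h4
  exact ⟨le_trans (by linarith) (h4 (by linarith [two_le_pi])), h3.trans (by linarith)⟩

lemma pt_sub {r : ℕ → ℝ} {N : ℕ → ℕ} {j n k : ℕ} (hr : 0 < r j) (hr1 : r j ≤ 1) (hn : n < N j)
    (hk : k < N j) : |(n : ℝ) - k| * (r j / N j) / 2 ≤ ‖pt r N j n - pt r N j k‖ := by
  have h0 : (0 : ℝ) < N j := by exact_mod_cast Nat.zero_lt_of_lt hn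
  have h4 := (chord (2 * r j - n * (r j / N j)) (2 * r j - k * (r j / N j))).2
  rw [sub_sub_sub_cancel_left, ← sub_mul, abs_mul, abs_sub_comm,
    abs_of_pos (show 0 < r j / N j by positivity)] at h4
  refine h4 ?_
  have h5 : |(n : ℝ) - k| ≤ N j := by
    have a : (n : ℝ) ≤ N j := by exact_mod_cast hn.le
    have b : (k : ℝ) ≤ N j := by exact_mod_cast hk.le
    rw [abs_le]
    constructor <;> linarith [(Nat.cast_nonneg n : (0 : ℝ) ≤ n), (Nat.cast_nonneg k : (0 : ℝ) ≤ k)]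
  calc _ ≤ N j * (r j / N j) := by gcongr
    _ = r j := by field_simp
    _ ≤ _ := by linarith [two_le_pi]

lemma blocks (r μ : ℕ → ℝ) (N : ℕ → ℕ) (hr : ∀ j, 0 < r j) (hr1 : ∀ j, r j ≤ 1)
    (h16 : ∀ i j, i < j → 16 * r j ≤ r i) (hN : ∀ j, 0 < N j) (hμ : ∀ j, 0 < μ j)
    (hμ' : ∀ j, μ j ≤ 1 / 16) (hS : ∀ G : Finset ℕ, ∑ j ∈ G, N j * μ j ≤ 1 / 32)
    (hL : ∀ j, N j * μ j * (1 + log (N j)) ≤ 1 / 512) :
    Hyp (ι := Σ j, Fin (N j)) (fun i => pt r N i.1 i.2) fun i => μ i.1 := by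
  refine ⟨fun i => by simp [pt], fun i => hμ _, fun i => hμ' _, fun z _ hz1 hi => ?_⟩
  have hρ : 0 < ‖1 - z‖ := norm_pos_iff.2 (sub_ne_zero.2 hz1.symm)
  set ρ := ‖1 - z‖ with hρd
  have near : ∀ j n, n < N j → ‖z - pt r N j n‖ < ρ / 2 → r j / 3 < ρ ∧ ρ < 4 * r j := by
    intro j n hn h
    obtain ⟨h1, h2⟩ := pt_one (hr j) (hr1 j) hn
    have h3 := abs_norm_sub_norm_le (1 - pt r N j n) (1 - z)
    rw [sub_sub_sub_cancel_left, abs_le] at h3
    constructor <;> linarith [h3.1, h3.2]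
  have far : ∀ j n, ρ / 2 ≤ ‖z - pt r N j n‖ → μ j / ‖z - pt r N j n‖ ≤ 2 * μ j / ρ := by
    intro j n h
    have := hμ j
    calc _ ≤ μ j / (ρ / 2) := by gcongr
      _ = _ := by field_simp
  have tot : ∀ (j0 : ℕ) (b : ℕ → ℝ), (∀ n, 0 ≤ b n) →
      ∑ n ∈ Finset.range (N j0), b n ≤ 1 / ρ / 16 → ∀ F : Finset (Σ j, Fin (N j)),
      (∀ i ∈ F, μ i.1 / ‖z - pt r N i.1 i.2‖ ≤ 2 * μ i.1 / ρ + if i.1 = j0 then b i.2 else 0) →
      ∑ i ∈ F, μ i.1 / ‖z - pt r N i.1 i.2‖ ≤ 1 / ρ / 8 := by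
    intro j0 b b0 hb F hF
    refine (Finset.sum_le_sum hF).trans ?_
    have hsub : F ⊆ (insert j0 (F.image Sigma.fst)).sigma fun _ => Finset.univ := fun i hi =>
      Finset.mem_sigma.2 ⟨Finset.mem_insert_of_mem (Finset.mem_image_of_mem _ hi),
        Finset.mem_univ _⟩
    refine (Finset.sum_le_sum_of_subset_of_nonneg hsub fun i _ _ => ?_).trans ?_
    · have := hμ i.1
      have := b0 i.2
      split_ifs <;> positivity
    rw [Finset.sum_sigma]
    simp only [Finset.sum_add_distrib, Finset.sum_const, Finset.card_univ, Fintype.card_fin,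
      nsmul_eq_mul]
    have e1 : ∑ j ∈ insert j0 (F.image Sigma.fst), (N j : ℝ) * (2 * μ j / ρ) =
        2 / ρ * ∑ j ∈ insert j0 (F.image Sigma.fst), N j * μ j := by
      rw [Finset.mul_sum]
      exact Finset.sum_congr rfl fun j _ => by ring
    have e2 : ∑ j ∈ insert j0 (F.image Sigma.fst), ∑ n : Fin (N j),
        (if j = j0 then b n else 0) = ∑ n ∈ Finset.range (N j0), b n := by
      rw [Finset.sum_eq_single_of_mem j0 (Finset.mem_insert_self _ _) fun j _ hj => by simp [hj]]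
      simp only [if_true]
      exact Fin.sum_univ_eq_sum_range b _
    rw [e1, e2]
    have := mul_le_mul_of_nonneg_left (hS (insert j0 (F.image Sigma.fst)))
      (show 0 ≤ 2 / ρ by positivity)
    have e3 : 2 / ρ * (1 / 32) = 1 / ρ / 16 := by ring
    linarith
  by_cases h : ∃ j n, n < N j ∧ ‖z - pt r N j n‖ < ρ / 2
  · obtain ⟨j0, n0, hn0, h0⟩ := h
    obtain ⟨k, hk, hmin⟩ := Finset.exists_min_image (Finset.range (N j0))
      (fun n => ‖z - pt r N j0 n‖) ⟨n0, Finset.mem_range.2 hn0⟩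
    rw [Finset.mem_range] at hk
    obtain ⟨q1, q2⟩ := near j0 n0 hn0 h0
    have N0 : (0 : ℝ) < N j0 := by exact_mod_cast hN j0
    have r0 := hr j0
    have m0 := hμ j0
    refine ⟨⟨j0, ⟨k, hk⟩⟩, fun F hF => tot j0
      (fun n => 4 * (N j0 * μ j0) / r j0 * (1 / |(n : ℝ) - k|)) (fun n => by positivity) ?_ F ?_⟩
    · rw [← Finset.mul_sum]
      have l0 : 0 ≤ log (N j0) := log_natCast_nonneg _
      calc _ ≤ 4 * (N j0 * μ j0) / (ρ / 4) * (2 * (1 + log (N j0))) := by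
            gcongr
            · linarith
            · exact harm hk
        _ = 32 / ρ * (N j0 * μ j0 * (1 + log (N j0))) := by field_simp; ring
        _ ≤ 32 / ρ * (1 / 512) := by gcongr; exact hL j0
        _ = _ := by ring
    · rintro ⟨j, n, hn⟩ hiF
      dsimp only
      split_ifs with hj
      · subst hj
        have hnk : n ≠ k := fun e => hF (by subst e; exact hiF)
        have a0 : 0 < |(n : ℝ) - k| := abs_pos.2 (sub_ne_zero.2 (by exact_mod_cast hnk))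
        have a1 := pt_sub (hr j) (hr1 j) hn hk
        have a2 := hmin n (Finset.mem_range.2 hn)
        have a3 := norm_sub_le (z - pt r N j k) (z - pt r N j n)
        rw [sub_sub_sub_cancel_left] at a3
        refine le_add_of_nonneg_of_le (by positivity) ?_
        calc _ ≤ μ j / (|(n : ℝ) - k| * (r j / N j) / 4) := by
              gcongr
              linarith
          _ = _ := by field_simp
      · rw [add_zero]
        refine far j n (le_of_not_gt fun h => ?_)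
        obtain ⟨q3, q4⟩ := near j n hn h
        rcases lt_or_gt_of_ne hj with h | h
        · linarith [h16 _ _ h]
        · linarith [h16 _ _ h, hr j]
  · push Not at h
    refine ⟨⟨0, ⟨0, hN 0⟩⟩, fun F _ => tot 0 (fun _ => 0) (fun _ => le_rfl)
      (by rw [Finset.sum_const_zero]; positivity) F fun i _ => ?_⟩
    simpa using far _ _ (h i.1 i.2 i.2.2)

lemma cover (r : ℕ → ℝ) (N : ℕ → ℕ) {j : ℕ} (hr : 0 < r j) (hN : 0 < N j) {θ : ℝ}
    (hθ : θ ∈ Ioc (r j) (2 * r j)) : ∃ n < N j, ‖circleMap 0 1 θ - pt r N j n‖ ≤ r j / N j := by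
  have N0 : (0 : ℝ) < N j := by exact_mod_cast hN
  have l0 : 0 < r j / N j := by positivity
  have x0 : 0 ≤ (2 * r j - θ) / (r j / N j) := div_nonneg (by linarith [hθ.2]) l0.le
  refine ⟨⌊(2 * r j - θ) / (r j / N j)⌋₊, ?_, (chord _ _).1.trans ?_⟩
  · rw [Nat.floor_lt x0, div_lt_iff₀ l0, mul_div_cancel₀ _ N0.ne']
    linarith [hθ.1]
  · have h1 := Nat.floor_le x0
    have h2 := Nat.lt_floor_add_one ((2 * r j - θ) / (r j / N j))
    rw [le_div_iff₀ l0] at h1
    rw [div_lt_iff₀ l0] at h2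
    rw [abs_le]
    constructor <;> linarith

lemma params {α : ℝ} (h0 : 0 < α) (h1 : α < 1) : ∃ (r μ : ℕ → ℝ) (N : ℕ → ℕ) (κ : ℝ),
    (∀ j, 0 < r j) ∧ (∀ j, r j ≤ 1) ∧ (∀ i j, i < j → 16 * r j ≤ r i) ∧ (∀ j, 0 < N j) ∧
    (∀ j, 0 < μ j) ∧ (∀ j, μ j ≤ 1 / 16) ∧ (∀ G : Finset ℕ, ∑ j ∈ G, N j * μ j ≤ 1 / 32) ∧
    (∀ j, N j * μ j * (1 + log (N j)) ≤ 1 / 512) ∧ 0 < κ ∧
    (∀ j, κ * (2 * r j) ^ (1 - α) ≤ μ j ^ α) ∧
    ∀ j, r j * (2 * (r j / N j)) ^ (-α) = 2 ^ (-α) * (1 / ((j : ℝ) + 1)) := by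
  have h2 : 0 < 1 - α := by linarith
  have hp : 1 < 1 / α := by rwa [one_lt_div h0]
  obtain ⟨b, hb⟩ := exists_nat_ge ((16 : ℝ) ^ ((1 - α) / α))
  have b1 : (1 : ℝ) ≤ b := (one_le_rpow (by norm_num) (by positivity)).trans hb
  have b0 : 0 < b := by exact_mod_cast lt_of_lt_of_le one_pos b1
  have bq : 16 ≤ (b : ℝ) ^ (α / (1 - α)) := by
    calc (16 : ℝ) = ((16 : ℝ) ^ ((1 - α) / α)) ^ (α / (1 - α)) := by
          rw [← rpow_mul (by norm_num), show (1 - α) / α * (α / (1 - α)) = 1 by field_simp,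
            rpow_one]
      _ ≤ _ := by gcongr
  set w : ℕ → ℝ := fun j => ((j : ℝ) + 1) ^ (-(1 / α)) with hw
  have w0 : ∀ j, 0 < w j := fun j => by positivity
  have w1 : ∀ j, w j * ((j : ℝ) + 1) ≤ 1 := fun j => by
    rw [hw]
    dsimp only
    rw [← rpow_add_one (by positivity)]
    exact rpow_le_one_of_one_le_of_nonpos (by simp) (by linarith)
  have w2 : ∀ j, w j ≤ 1 := fun j => le_trans (le_mul_of_one_le_right (w0 j).le (by simp)) (w1 j)
  have ws : Summable w := by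
    have := (summable_nat_add_iff 1).2 (summable_nat_rpow.2 (show -(1 / α) < -1 by linarith))
    simpa [hw] using this
  have S0 : 0 ≤ ∑' j, w j := tsum_nonneg fun j => (w0 j).le
  have l0 : 0 ≤ log b := log_nonneg b1
  set ε := 1 / (512 * (1 + ∑' j, w j) * (1 + log b)) with hε
  have ε0 : 0 < ε := by positivity
  have ε1 : ε * ((1 + ∑' j, w j) * (1 + log b)) = 1 / 512 := by
    rw [hε]
    field_simp
  have N1 : ∀ j, (1 : ℝ) ≤ (b ^ (j + 1) : ℕ) := fun j => by
    push_cast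
    exact one_le_pow₀ b1
  have N0 : ∀ j, (0 : ℝ) < (b ^ (j + 1) : ℕ) := fun j => one_pos.trans_le (N1 j)
  set a : ℕ → ℝ := fun j => w j / (b ^ (j + 1) : ℕ) with ha
  have a0 : ∀ j, 0 < a j := fun j => div_pos (w0 j) (N0 j)
  have a1 : ∀ j, a j ≤ 1 := fun j => (div_le_one (N0 j)).2 ((w2 j).trans (N1 j))
  have a2 : ∀ j, ((b ^ (j + 1) : ℕ) : ℝ) * (ε * a j) = ε * w j := fun j => by
    have := N0 j
    rw [ha]
    field_simp
  have a3 : ∀ j, (a j ^ (α / (1 - α))) ^ (1 - α) = a j ^ α := fun j => by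
    rw [← rpow_mul (a0 j).le, div_mul_cancel₀ _ h2.ne']
  have k1 := mul_nonneg ε0.le S0
  have k2 := mul_nonneg ε0.le l0
  have k3 := mul_nonneg k1 l0
  refine ⟨fun j => a j ^ (α / (1 - α)), fun j => ε * a j, fun j => b ^ (j + 1), ε ^ α / 2,
    fun j => rpow_pos_of_pos (a0 j) _, fun j => rpow_le_one (a0 j).le (a1 j) (by positivity),
    fun i j hij => ?_, fun j => by positivity, fun j => mul_pos ε0 (a0 j), fun j => ?_,
    fun G => ?_, fun j => ?_, by positivity, fun j => ?_, fun j => ?_⟩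
  · have h3 : b * a j ≤ a i := by
      have h4 : w j ≤ w i := rpow_le_rpow_of_nonpos (by positivity)
        (by exact_mod_cast Nat.succ_le_succ hij.le) (by linarith)
      have h5 : (b : ℝ) * (b ^ (i + 1) : ℕ) ≤ (b ^ (j + 1) : ℕ) := by
        push_cast
        rw [← pow_succ']
        exact pow_le_pow_right₀ b1 (by omega)
      have := w0 i
      have := N0 i
      calc _ ≤ b * (w i / (b * (b ^ (i + 1) : ℕ))) := by rw [ha]; dsimp only; gcongr
        _ = _ := by rw [ha]; field_simp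
    have := a0 j
    calc _ ≤ (b : ℝ) ^ (α / (1 - α)) * a j ^ (α / (1 - α)) := by gcongr
      _ = (b * a j) ^ (α / (1 - α)) := (mul_rpow (by positivity) this.le).symm
      _ ≤ a i ^ (α / (1 - α)) := by gcongr
  · nlinarith [mul_le_mul_of_nonneg_left (a1 j) ε0.le]
  · simp only [a2, ← Finset.mul_sum]
    nlinarith [mul_le_mul_of_nonneg_left (ws.sum_le_tsum G fun j _ => (w0 j).le) ε0.le]
  · rw [a2]
    push_cast
    rw [log_pow]
    push_cast
    have := mul_le_mul_of_nonneg_left (w1 j) k2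
    nlinarith [mul_le_mul_of_nonneg_left (w2 j) ε0.le]
  · have := a0 j
    rw [mul_rpow (by norm_num) (by positivity), a3, mul_rpow ε0.le this.le]
    have h3 : (2 : ℝ) ^ (1 - α) ≤ 2 :=
      (rpow_le_rpow_of_exponent_le one_le_two (by linarith)).trans (rpow_one 2).le
    calc _ ≤ ε ^ α / 2 * (2 * a j ^ α) := by gcongr
      _ = _ := by ring
  · have r0 : 0 < a j ^ (α / (1 - α)) := rpow_pos_of_pos (a0 j) _
    have := N0 j
    have := a0 j
    have e : a j ^ α * ((b ^ (j + 1) : ℕ) : ℝ) ^ α = 1 / ((j : ℝ) + 1) := by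
      rw [← mul_rpow (a0 j).le (N0 j).le, ha, div_mul_cancel₀ _ (N0 j).ne', hw,
        ← rpow_mul (by positivity), show -(1 / α) * α = -1 by field_simp, rpow_neg_one, one_div]
    rw [mul_rpow (by norm_num) (by positivity), div_rpow r0.le (N0 j).le, ← e, ← a3,
      rpow_sub r0, rpow_one, rpow_neg r0.le, rpow_neg (N0 j).le]
    field_simp

end Pool.Agent.H.MP_345ce5_an
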